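import Pool.Agent.H75.ST.Stmt

/-!
Module PDX: existence of the pieces.
-/

set_option autoImplicit false

open Set Pool.Agent.TK

namespace Pool.Agent.ST

theorem pf_PDX {C : Type} {c0 : C} : PDX C c0 := by
  classical
  intro M hM w hw Q hyp
  choose! f d hfd using hyp
  -- the recursion
  let A : ℕ → Set ℕ := fun n => Nat.rec {0} (fun n B => (B ∪ f B) ∪ {n + 1}) n
  have hA0 : A 0 = {0} := rfl
  have hAs : ∀ n, A (n + 1) = (A n ∪ f (A n)) ∪ {n + 1} := fun n => rfl
  have hAf : ∀ n, (A n).Finite := by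
    intro n
    induction n with
    | zero => rw [hA0]; exact finite_singleton 0
    | succ n ih =>
      rw [hAs]
      exact (ih.union (hfd _ ih).1.1).union (finite_singleton _)
  have hmem : ∀ n, n ∈ A n := by
    intro n
    cases n with
    | zero => rw [hA0]; rfl
    | succ n => rw [hAs]; exact Or.inr rfl
  let G : ℕ → Set ℕ := fun n => A n ∪ f (A n)
  let D : ℕ → Set ℕ := fun n => d (A n)
  let F : ℕ → Set ℕ := fun n => f (A n)
  have hoff : ∀ n, Off M w (F n) (D n) := fun n => (hfd _ (hAf n)).1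
  have hDA : ∀ n, D n ⊆ w (A n) := fun n => (hfd _ (hAf n)).2.1
  have hQ : ∀ n, Q (D n) := fun n => (hfd _ (hAf n)).2.2
  have hGf : ∀ n, (G n).Finite := fun n => (hAf n).union (hoff n).1
  have hGA : ∀ n, G n ⊆ A (n + 1) := by
    intro n x hx
    rw [hAs]
    exact Or.inl hx
  have hAG : ∀ n, A n ⊆ G n := fun n x hx => Or.inl hx
  have hFG : ∀ n, F n ⊆ G n := fun n x hx => Or.inr hx
  have hGs : ∀ n, G n ⊆ G (n + 1) := fun n x hx => hAG (n + 1) (hGA n hx)
  have hGm : ∀ i j, i ≤ j → G i ⊆ G j := by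
    intro i j hij
    induction hij with
    | refl => exact subset_rfl
    | step _ ih => exact ih.trans (hGs _)
  have hGAl : ∀ i j, i < j → G i ⊆ A j := by
    intro i j hij
    obtain ⟨k, rfl⟩ := Nat.exists_eq_add_of_lt hij
    exact (hGm i (i + k) (Nat.le_add_right _ _)).trans (hGA _)
  have hwanti : ∀ {B B' : Set ℕ}, B'.Finite → B ⊆ B' → w B' ⊆ w B := fun h h' => hw.2 _ _ h h'
  have hDG : ∀ i j, i < j → D j ⊆ w (G i) := fun i j hij =>
    (hDA j).trans (hwanti (hAf j) (hGAl i j hij))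
  have hGF : ∀ i j, i ≤ j → w (G j) ⊆ w (F i) := fun i j hij =>
    hwanti (hGf j) ((hFG i).trans (hGm i j hij))
  have hcpF : ∀ i, IsCp M (F i) (w (F i)) := fun i => hw.1 _ (hoff i).1
  have hdj : ∀ i x, x ∈ D i → x ∉ w (F i) := fun i x hx hx' =>
    (hoff i).2.2 ((hoff i).2.1.eq_of_inter hM (hcpF i) hx hx')
  -- pieces are not adjacent to the side of the direction
  have hna : ∀ i u s, u ∈ D i → s ∈ w (F i) → M.1 u s = true → False := by
    intro i u s hu hs hE
    have h1 : u ∈ F i := (hcpF i).nb hM ⟨hdj i u hu, s, hs, hE⟩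
    exact Set.disjoint_left.1 (hoff i).2.1.disj hu h1
  have hDF : ∀ i j, i < j → D j ⊆ w (F i) := fun i j hij => (hDG i j hij).trans (hGF i i le_rfl)
  let E : ℕ → Set ℕ := fun n => G n \ ⋃ i, D i
  have hEf : ∀ n, (E n).Finite := fun n => (hGf n).subset diff_subset
  have hEG : ∀ n, E n ⊆ G n := fun n => diff_subset
  have hnbG : ∀ n, Nb M (w (G n)) ⊆ E n := by
    intro n u hu
    refine ⟨(hw.1 _ (hGf n)).nb hM hu, ?_⟩
    intro hu'
    obtain ⟨i, hi⟩ := mem_iUnion.1 hu'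
    obtain ⟨hun, s, hs, hE⟩ := hu
    rcases Nat.lt_or_ge n i with h | h
    · exact hun (hDG n i h hi)
    · exact hna i u s hi (hGF i n h hs) hE
  have hwE : ∀ n, w (E n) = w (G n) := by
    intro n
    have h1 : IsCp M (E n) (w (G n)) := by
      rw [isCp_iff hM]
      refine ⟨(hw.1 _ (hGf n)).cd hM, ?_, hnbG n⟩
      exact (hw.1 _ (hGf n)).disj.mono_right (hEG n)
    obtain ⟨x, hx⟩ := h1.nonempty
    exact (hw.1 _ (hEf n)).eq_of_inter hM h1 (hwanti (hGf n) (hEG n) hx) hx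
  have hnbD : ∀ i, Nb M (D i) ⊆ E i := by
    intro i u hu
    refine ⟨hFG i ((hoff i).2.1.nb hM hu), ?_⟩
    intro hu'
    obtain ⟨j, hj⟩ := mem_iUnion.1 hu'
    have huF : u ∈ F i := (hoff i).2.1.nb hM hu
    obtain ⟨hun, s, hs, hE⟩ := hu
    rcases lt_trichotomy i j with h | h | h
    · exact Set.disjoint_left.1 (hcpF i).disj (hDF i j h hj) huF
    · subst h; exact hun hj
    · exact hna j u s hj (hDF j i h hs) hE
  refine ⟨E, D, ?_, hQ⟩
  refine ⟨hw, hEf, ?_, ?_, ?_, ?_, ?_, ?_⟩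
  · intro n x hx
    exact ⟨hGs n hx.1, hx.2⟩
  · intro v
    refine ⟨v, ?_⟩
    rw [hwE]
    intro hv
    exact Set.disjoint_left.1 (hw.1 _ (hGf v)).disj hv (hAG v (hmem v))
  · intro i
    rw [isCp_iff hM]
    refine ⟨(hoff i).2.1.cd hM, ?_, hnbD i⟩
    rw [Set.disjoint_left]
    intro x hx hx'
    exact hx'.2 (mem_iUnion.2 ⟨i, hx⟩)
  · intro i he
    obtain ⟨x, hx⟩ := (hoff i).2.1.nonempty
    have hx' : x ∈ w (E i) := he ▸ hx
    rw [hwE] at hx'
    exact hdj i x hx (hGF i i le_rfl hx')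
  · intro i j hij
    rw [hwE]
    exact hDG i j hij
  · intro i j
    rw [Set.disjoint_left]
    intro x hx hx'
    exact hx'.2 (mem_iUnion.2 ⟨i, hx⟩)

end Pool.Agent.ST
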